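import Pool.Agent.H8.Alm.Defs

namespace Pool.Agent.H8.Alm

open Polynomial

/-- **Module 3a.** A submultiplicative norm on `ℤ[X]/(f)`. -/
theorem adjoinRoot_norm (n : ℕ) (hn : 1 ≤ n) : ∃ κ : ℕ, ∀ (B : ℕ), 2 ≤ B →
    ∀ f : ℤ[X], f.Monic → f.natDegree = n → (∀ i, |f.coeff i| ≤ (B : ℤ)) →
    ∃ N : RingSeminorm (AdjoinRoot f), N 1 ≤ (B : ℝ) ^ κ ∧
      N (AdjoinRoot.root f) ≤ (B : ℝ) ^ κ ∧
      ∀ v : AdjoinRoot f, ∃ p : ℤ[X], p.natDegree < n ∧ v = AdjoinRoot.mk f p ∧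
        ∀ i, |(p.coeff i : ℝ)| ≤ N v := by
  sorry

end Pool.Agent.H8.Alm
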