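import Pool.Agent.H8.Alm.Defs

/-! # Module 5: the analytic upper bound -/

namespace Pool.Agent.H8.Alm

/-- **Module 5.** -/
theorem analytic_step (n κ₀ : ℕ) (hn : 1 ≤ n) : ∃ κ : ℕ, ∀ (B : ℕ), 2 ≤ B →
    ∀ (σ₁ σ₂ : PowerSeries ℂ),
    (∀ j, ‖PowerSeries.coeff j σ₁‖ ≤ (B : ℝ) ^ (κ₀ * (j + 1))) →
    (∀ j, ‖PowerSeries.coeff j σ₂‖ ≤ (B : ℝ) ^ (κ₀ * (j + 1))) →
    ∀ (x₂ y₂ : ℤ) (Y : ℝ), (B : ℝ) ^ κ ≤ Y → (x₂ : ℂ) = y₂ * pv σ₂ (1 / y₂) →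
    ∀ (l D e : ℕ), 1 ≤ D → 2 * l ≤ D → D + e ≤ 3 * l → e ≤ D →
    Y ^ l ≤ |(y₂ : ℝ)| → |(y₂ : ℝ)| ≤ Y ^ (l + 1) →
    ∀ (u : Fin 6 → Fin n → ℕ → ℤ), (∀ j (b : Fin n) c, D < (b : ℕ) + c → u j b c = 0) →
    (∀ j b c, |u j b c| ≤ (B : ℤ) ^ (κ₀ * D)) →
    (∀ e', e' < D + 2 * l + 2 + e → PowerSeries.coeff e' (hser D u σ₁ σ₂ 0) = 0) →
    (∀ e', e' < D + l + 1 + e → PowerSeries.coeff e' (hser D u σ₁ σ₂ 1) = 0) →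
    (∀ e', e' < D + e → PowerSeries.coeff e' (hser D u σ₁ σ₂ 2) = 0) →
    (∀ e', e' < D - l + e → PowerSeries.coeff e' (hser D u σ₁ σ₂ 3) = 0) →
    (∀ e', e' < D - 2 * l + e → PowerSeries.coeff e' (hser D u σ₁ σ₂ 4) = 0) →
    ∀ y : ℂ, Y / 2 ≤ ‖y‖ → ‖y‖ ≤ 2 * Y →
      ‖auxv D u (gmon x₂ y₂) (y * pv σ₁ (1 / y)) y‖ * Y ^ e ≤ (B : ℝ) ^ (κ * D) := by
  sorry

end Pool.Agent.H8.Alm
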