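import Pool.Agent.H8.Alm.Defs

namespace Pool.Agent.H8.Alm

open Polynomial

theorem bu_om {n : ℕ} (a : Ix n → ℤ) (α : ℂ) :
    om a α = ∑ p : Ix n, if (p.1.1 : ℕ) + (p.1.2 : ℕ) = n then
      (a p : ℂ) * ((p.1.1 : ℕ) : ℂ) * α ^ ((p.1.1 : ℕ) - 1) else 0 := by
  unfold om topf
  rw [derivative_sum, map_sum]
  refine Finset.sum_congr rfl fun p _ => ?_
  split_ifs with h
  · rw [derivative_C_mul_X_pow]
    simp
  · simp

/-- the divided difference of `phi` -/
noncomputable def buU {n : ℕ} (a : Ix n → ℤ) (σ σ' : PowerSeries ℂ) : PowerSeries ℂ :=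
  ∑ p : Ix n, (a p : PowerSeries ℂ) * (∑ t ∈ Finset.range (p.1.1 : ℕ),
    σ' ^ t * σ ^ ((p.1.1 : ℕ) - 1 - t)) * PowerSeries.X ^ (n - (p.1.1 : ℕ) - (p.1.2 : ℕ))

theorem bu_diff {n : ℕ} (a : Ix n → ℤ) (σ σ' : PowerSeries ℂ) :
    phi a σ' PowerSeries.X - phi a σ PowerSeries.X = (σ' - σ) * buU a σ σ' := by
  unfold phi buU
  rw [Finset.mul_sum, ← Finset.sum_sub_distrib]
  refine Finset.sum_congr rfl fun p _ => ?_
  have h := (Commute.all σ' σ).geom_sum₂_mul (p.1.1 : ℕ)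
  calc (a p : PowerSeries ℂ) * σ' ^ (p.1.1 : ℕ) *
        PowerSeries.X ^ (n - (p.1.1 : ℕ) - (p.1.2 : ℕ)) -
      (a p : PowerSeries ℂ) * σ ^ (p.1.1 : ℕ) * PowerSeries.X ^ (n - (p.1.1 : ℕ) - (p.1.2 : ℕ))
      = (a p : PowerSeries ℂ) * (σ' ^ (p.1.1 : ℕ) - σ ^ (p.1.1 : ℕ)) *
        PowerSeries.X ^ (n - (p.1.1 : ℕ) - (p.1.2 : ℕ)) := by ring
    _ = _ := by rw [← h]; ring

theorem bu_const {n : ℕ} (a : Ix n → ℤ) (α : ℂ) (σ σ' : PowerSeries ℂ)
    (h : PowerSeries.constantCoeff σ = α) (h' : PowerSeries.constantCoeff σ' = α) :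
    PowerSeries.constantCoeff (buU a σ σ') = om a α := by
  unfold buU
  rw [bu_om, map_sum]
  refine Finset.sum_congr rfl fun p _ => ?_
  have hp := p.2
  rw [map_mul, map_mul, map_sum, map_pow, PowerSeries.constantCoeff_X]
  simp only [map_mul, map_pow, h, h', ← pow_add, map_intCast]
  have h1 : ∑ t ∈ Finset.range (p.1.1 : ℕ), α ^ (t + ((p.1.1 : ℕ) - 1 - t)) =
      ((p.1.1 : ℕ) : ℂ) * α ^ ((p.1.1 : ℕ) - 1) := by
    have h2 : ∀ t ∈ Finset.range (p.1.1 : ℕ), α ^ (t + ((p.1.1 : ℕ) - 1 - t)) =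
        α ^ ((p.1.1 : ℕ) - 1) := by
      intro t ht
      rw [Finset.mem_range] at ht
      congr 1
      omega
    rw [Finset.sum_congr rfl h2, Finset.sum_const, Finset.card_range, nsmul_eq_mul]
  rw [h1]
  split_ifs with h3
  · have h4 : n - (p.1.1 : ℕ) - (p.1.2 : ℕ) = 0 := by omega
    rw [h4, pow_zero, mul_one, mul_assoc]
  · rw [zero_pow (by omega), mul_zero]

/-- **Module 1b.** -/
theorem branch_unique {n : ℕ} (a : Ix n → ℤ) (α : ℂ) (hne : om a α ≠ 0)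
    (σ σ' : PowerSeries ℂ) (h : IsBranch a α σ) (h' : IsBranch a α σ') : σ = σ' := by
  have h1 := bu_diff a σ σ'
  rw [h.2, h'.2, sub_zero] at h1
  have h2 : buU a σ σ' ≠ 0 := by
    intro h0
    have h3 := bu_const a α σ σ' h.1 h'.1
    rw [h0, map_zero] at h3
    exact hne h3.symm
  have h4 := (mul_eq_zero.1 h1.symm).resolve_right h2
  exact (sub_eq_zero.1 h4).symm

theorem bu_phi_change {n : ℕ} (a a' : Ix n → ℤ) (m : ℕ) (hm : m < n)
    (hagree : ∀ p, p ≠ ixY n m hm.le → a p = a' p) (σ : PowerSeries ℂ) :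
    phi a' σ PowerSeries.X = phi a σ PowerSeries.X +
      PowerSeries.C ((a' (ixY n m hm.le) - a (ixY n m hm.le) : ℤ) : ℂ) *
        PowerSeries.X ^ (n - m) := by
  classical
  rw [← sub_eq_iff_eq_add']
  unfold phi
  rw [← Finset.sum_sub_distrib, Finset.sum_eq_single (ixY n m hm.le)]
  · simp only [ixY, pow_zero, mul_one, Nat.sub_zero, Int.cast_sub, map_sub, map_intCast]
    ring
  · intro p _ hp
    rw [hagree p hp, sub_self]
  · intro hp
    exact absurd (Finset.mem_univ _) hp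

/-- **Module 1c.** -/
theorem branch_perturb {n : ℕ} (a a' : Ix n → ℤ) (m : ℕ) (hm : m < n)
    (hagree : ∀ p, p ≠ ixY n m hm.le → a p = a' p) (α : ℂ) (hne : om a α ≠ 0)
    (σ σ' : PowerSeries ℂ) (h : IsBranch a α σ) (h' : IsBranch a' α σ') :
    (∀ j, j < n - m → PowerSeries.coeff j σ' = PowerSeries.coeff j σ) ∧
      PowerSeries.coeff (n - m) σ' = PowerSeries.coeff (n - m) σ -
        ((a' (ixY n m hm.le) - a (ixY n m hm.le) : ℤ) : ℂ) / om a α := by
  set b : ℂ := ((a' (ixY n m hm.le) - a (ixY n m hm.le) : ℤ) : ℂ) with hb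
  have h1 := bu_diff a σ σ'
  have h2 := bu_phi_change a a' m hm hagree σ'
  rw [h'.2] at h2
  rw [h.2, sub_zero] at h1
  rw [h1] at h2
  have hU := bu_const a α σ σ' h.1 h'.1
  have hU0 : PowerSeries.constantCoeff (buU a σ σ') ≠ 0 := by rw [hU]; exact hne
  have h3 : σ' - σ = PowerSeries.X ^ (n - m) * (PowerSeries.C (-b) * (buU a σ σ')⁻¹) := by
    have h4 : (σ' - σ) * buU a σ σ' = PowerSeries.C (-b) * PowerSeries.X ^ (n - m) := by
      rw [map_neg, neg_mul]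
      exact eq_neg_of_add_eq_zero_left h2.symm
    calc σ' - σ = (σ' - σ) * (buU a σ σ' * (buU a σ σ')⁻¹) := by
          rw [PowerSeries.mul_inv_cancel _ hU0, mul_one]
      _ = ((σ' - σ) * buU a σ σ') * (buU a σ σ')⁻¹ := by ring
      _ = _ := by rw [h4]; ring
  constructor
  · intro j hj
    have h5 := congrArg (PowerSeries.coeff j) h3
    rw [map_sub, PowerSeries.coeff_X_pow_mul', if_neg (by omega)] at h5
    exact sub_eq_zero.1 h5
  · have h5 := congrArg (PowerSeries.coeff (n - m)) h3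
    rw [map_sub, PowerSeries.coeff_X_pow_mul', if_pos le_rfl, Nat.sub_self,
      PowerSeries.coeff_zero_eq_constantCoeff_apply, map_mul, PowerSeries.constantCoeff_C,
      PowerSeries.constantCoeff_inv, hU] at h5
    rw [sub_eq_iff_eq_add] at h5
    rw [h5, div_eq_mul_inv]
    ring

end Pool.Agent.H8.Alm
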