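import Pool.Agent.H8.Alm.Fixpoint
import Pool.Agent.H8.Alm.BranchUnique

namespace Pool.Agent.H8.Alm

open Polynomial

theorem be_add_pow (α : ℂ) (w : PowerSeries ℂ) (i n : ℕ) (h : i ≤ n) :
    (PowerSeries.C α + w) ^ i = ∑ r : Fin (n + 1),
      PowerSeries.C ((i.choose (r : ℕ) : ℂ) * α ^ (i - (r : ℕ))) * w ^ (r : ℕ) := by
  rw [Fin.sum_univ_eq_sum_range
    (fun r => PowerSeries.C ((i.choose r : ℂ) * α ^ (i - r)) * w ^ r) (n + 1), add_comm, add_pow]
  have h1 : Finset.range (i + 1) ⊆ Finset.range (n + 1) := by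
    intro r hr
    rw [Finset.mem_range] at hr ⊢
    omega
  rw [← Finset.sum_subset h1 fun r _ hr => by
    rw [Finset.mem_range] at hr
    rw [Nat.choose_eq_zero_of_lt (by omega)]
    simp]
  refine Finset.sum_congr rfl fun r _ => ?_
  rw [map_mul, map_pow, map_natCast]
  ring

theorem be_top {n : ℕ} (a : Ix n → ℤ) (α : ℂ) :
    aeval α (topf a) = ∑ p : Ix n, if (p.1.1 : ℕ) + (p.1.2 : ℕ) = n then
      (a p : ℂ) * α ^ (p.1.1 : ℕ) else 0 := by
  unfold topf
  rw [map_sum]
  refine Finset.sum_congr rfl fun p _ => ?_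
  split_ifs with h <;> simp

/-- **Module 1d.** -/
theorem exists_branch {n : ℕ} (a : Ix n → ℤ) (α : ℂ) (hα : aeval α (topf a) = 0)
    (hne : om a α ≠ 0) (Ω : ℝ) (hΩ : 1 ≤ Ω)
    (hb : (∑ p, |(a p : ℝ)|) * (1 + ‖α‖) ^ n ≤ Ω * ‖om a α‖) :
    ∃ σ : PowerSeries ℂ, IsBranch a α σ ∧
      ∀ j, 1 ≤ j → ‖PowerSeries.coeff j σ‖ ≤ (4 * Ω ^ 2) ^ j := by
  classical
  have hom : 0 < ‖om a α‖ := norm_pos_iff.2 hne
  -- `1 ≤ n`
  have hn : 1 ≤ n := by
    by_contra hc
    apply hne
    rw [bu_om]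
    refine Finset.sum_eq_zero fun p _ => ?_
    have hp := p.2
    have : (p.1.1 : ℕ) = 0 := by omega
    rw [this]
    simp
  let l : Ix n → ℕ := fun p => n - (p.1.1 : ℕ) - (p.1.2 : ℕ)
  let bad : Ix n × Fin (n + 1) → Prop := fun q => l q.1 = 0 ∧ (q.2 : ℕ) ≤ 1
  let c : Ix n × Fin (n + 1) → ℂ := fun q =>
    (a q.1 : ℂ) * (((q.1.1.1 : ℕ).choose (q.2 : ℕ) : ℂ) * α ^ ((q.1.1.1 : ℕ) - (q.2 : ℕ)))
  obtain ⟨w, hw0, hw, hwN⟩ := fixpoint_series (R := ℂ)
    (fun q : Ix n × Fin (n + 1) => if bad q then 0 else -(c q) / om a α)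
    (fun q => if bad q then 2 else (q.2 : ℕ)) (fun q => if bad q then 0 else l q.1)
    (by
      intro q
      by_cases hbq : bad q
      · simp only [hbq, if_true]
        omega
      · simp only [hbq, if_false]
        simp only [bad, not_and_or, not_le] at hbq
        rcases hbq with hbq | hbq <;> omega)
  have hexp : phi a (PowerSeries.C α + w) PowerSeries.X =
      ∑ q : Ix n × Fin (n + 1), PowerSeries.C (c q) * w ^ (q.2 : ℕ) * PowerSeries.X ^ l q.1 := by
    unfold phi
    rw [Fintype.sum_prod_type]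
    refine Finset.sum_congr rfl fun p _ => ?_
    have hp := p.2
    rw [be_add_pow α w _ n (by omega), Finset.mul_sum, Finset.sum_mul]
    refine Finset.sum_congr rfl fun r _ => ?_
    have e : ((a p : ℤ) : PowerSeries ℂ) = PowerSeries.C (a p : ℂ) := by simp
    rw [e]
    simp only [c, l, map_mul, map_pow]
    ring
  have h1 : PowerSeries.C (om a α) * w =
      -∑ q : Ix n × Fin (n + 1), (if bad q then 0 else
        PowerSeries.C (c q) * w ^ (q.2 : ℕ) * PowerSeries.X ^ l q.1) := by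
    conv_lhs => rw [hw]
    rw [Finset.mul_sum, ← Finset.sum_neg_distrib]
    refine Finset.sum_congr rfl fun q _ => ?_
    by_cases hbq : bad q
    · simp only [hbq, if_true, map_zero, zero_mul, mul_zero, neg_zero]
    · simp only [hbq, if_false]
      rw [← mul_assoc, ← mul_assoc, ← map_mul, mul_div_cancel₀ _ hne, map_neg]
      ring
  have h2 : ∑ q : Ix n × Fin (n + 1), (if bad q then
        PowerSeries.C (c q) * w ^ (q.2 : ℕ) * PowerSeries.X ^ l q.1 else 0) =
      PowerSeries.C (om a α) * w := by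
    rw [Fintype.sum_prod_type]
    have h3 : ∀ p : Ix n, ∑ r : Fin (n + 1), (if bad (p, r) then
        PowerSeries.C (c (p, r)) * w ^ (r : ℕ) * PowerSeries.X ^ l p else 0) =
        PowerSeries.C (if (p.1.1 : ℕ) + (p.1.2 : ℕ) = n then
          (a p : ℂ) * α ^ (p.1.1 : ℕ) else 0) +
        PowerSeries.C (if (p.1.1 : ℕ) + (p.1.2 : ℕ) = n then
          (a p : ℂ) * ((p.1.1 : ℕ) : ℂ) * α ^ ((p.1.1 : ℕ) - 1) else 0) * w := by
      intro p
      have hp := p.2
      by_cases hl : (p.1.1 : ℕ) + (p.1.2 : ℕ) = n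
      · have hl0 : l p = 0 := by simp only [l]; omega
        rw [if_pos hl, if_pos hl, ← Finset.sum_filter]
        have hf : Finset.univ.filter (fun r : Fin (n + 1) => bad (p, r)) =
            {(⟨0, by omega⟩ : Fin (n + 1)), (⟨1, by omega⟩ : Fin (n + 1))} := by
          ext r
          simp only [Finset.mem_filter, Finset.mem_univ, true_and, Finset.mem_insert,
            Finset.mem_singleton, bad, hl0, Fin.ext_iff]
          omega
        rw [hf, Finset.sum_pair (by simp)]
        simp only [c, hl0, pow_zero, mul_one, pow_one, Nat.choose_zero_right, Nat.cast_one,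
          one_mul, Nat.sub_zero, Nat.choose_one_right]
        rw [mul_assoc (a p : ℂ)]
      · have hl0 : l p ≠ 0 := by simp only [l]; omega
        rw [if_neg hl, if_neg hl]
        rw [Finset.sum_eq_zero fun r _ => by rw [if_neg (fun hb' : bad (p, r) => hl0 hb'.1)]]
        simp
    rw [Finset.sum_congr rfl fun p _ => h3 p, Finset.sum_add_distrib, ← map_sum,
      ← Finset.sum_mul, ← map_sum, ← be_top, ← bu_om, hα, map_zero, zero_add]
  refine ⟨PowerSeries.C α + w, ⟨by simp [hw0], ?_⟩, ?_⟩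
  · rw [hexp]
    have h4 : ∑ q : Ix n × Fin (n + 1), PowerSeries.C (c q) * w ^ (q.2 : ℕ) *
        PowerSeries.X ^ l q.1 =
        (∑ q : Ix n × Fin (n + 1), (if bad q then
          PowerSeries.C (c q) * w ^ (q.2 : ℕ) * PowerSeries.X ^ l q.1 else 0)) +
        ∑ q : Ix n × Fin (n + 1), (if bad q then 0 else
          PowerSeries.C (c q) * w ^ (q.2 : ℕ) * PowerSeries.X ^ l q.1) := by
      rw [← Finset.sum_add_distrib]
      refine Finset.sum_congr rfl fun q _ => ?_
      split_ifs <;> simp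
    rw [h4, h2, h1, neg_add_cancel]
  · intro j hj
    have h5 : PowerSeries.coeff j (PowerSeries.C α + w) = PowerSeries.coeff j w := by
      rw [map_add, PowerSeries.coeff_C, if_neg (by omega), zero_add]
    rw [h5]
    refine hwN (normRingSeminorm ℂ) Ω hΩ ?_ j
    show ∑ q : Ix n × Fin (n + 1), ‖(if bad q then 0 else -(c q) / om a α : ℂ)‖ ≤ Ω
    have h6 : ∀ q : Ix n × Fin (n + 1), ‖(if bad q then 0 else -(c q) / om a α : ℂ)‖ ≤
        |(a q.1 : ℝ)| * (((q.1.1.1 : ℕ).choose (q.2 : ℕ) : ℝ) *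
          ‖α‖ ^ ((q.1.1.1 : ℕ) - (q.2 : ℕ))) / ‖om a α‖ := by
      intro q
      split_ifs
      · rw [norm_zero]
        positivity
      · rw [norm_div, norm_neg]
        simp only [c, norm_mul, norm_pow, Complex.norm_natCast, Complex.norm_intCast]
        exact le_rfl
    refine (Finset.sum_le_sum fun q _ => h6 q).trans ?_
    rw [← Finset.sum_div, div_le_iff₀ hom]
    refine le_trans ?_ hb
    rw [Fintype.sum_prod_type, Finset.sum_mul]
    refine Finset.sum_le_sum fun p _ => ?_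
    have hp := p.2
    simp only
    rw [← Finset.mul_sum]
    refine mul_le_mul_of_nonneg_left ?_ (abs_nonneg _)
    have h7 : ∑ r : Fin (n + 1), ((p.1.1 : ℕ).choose (r : ℕ) : ℝ) *
        ‖α‖ ^ ((p.1.1 : ℕ) - (r : ℕ)) = (1 + ‖α‖) ^ (p.1.1 : ℕ) := by
      rw [Fin.sum_univ_eq_sum_range
        (fun r => ((p.1.1 : ℕ).choose r : ℝ) * ‖α‖ ^ ((p.1.1 : ℕ) - r)) (n + 1), add_pow]
      have h8 : Finset.range ((p.1.1 : ℕ) + 1) ⊆ Finset.range (n + 1) := by
        intro r hr
        rw [Finset.mem_range] at hr ⊢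
        omega
      rw [← Finset.sum_subset h8 fun r _ hr => by
        rw [Finset.mem_range] at hr
        rw [Nat.choose_eq_zero_of_lt (by omega)]
        simp]
      refine Finset.sum_congr rfl fun r _ => ?_
      rw [one_pow]
      ring
    rw [h7]
    exact pow_le_pow_right₀ (by linarith [norm_nonneg α]) (by omega)

end Pool.Agent.H8.Alm
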