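import Pool.Agent.H8.Alm.BranchUnique
import Pool.Agent.H8.Alm.BranchExist

namespace Pool.Agent.H8.Alm

open Polynomial

/-- **Module 1e.** -/
theorem capture {n : ℕ} (hn : 1 ≤ n) (a : Ix n → ℤ) (α : ℂ) (hα : aeval α (topf a) = 0)
    (hne : om a α ≠ 0) (Ω : ℝ) (hΩ : 1 ≤ Ω)
    (hb : (∑ p, |(a p : ℝ)|) * (1 + ‖α‖) ^ n ≤ Ω * ‖om a α‖)
    (σ : PowerSeries ℂ) (hσ : IsBranch a α σ) (z : ℂ) (hz : ‖z‖ * (64 * n * Ω ^ 3) ≤ 1) :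
    Summable (fun j => ‖PowerSeries.coeff j σ * z ^ j‖) ∧ phi a (pv σ z) z = 0 ∧
      ‖pv σ z - α‖ * (8 * n * Ω) ≤ 1 ∧
      ∀ s : ℂ, ‖s - α‖ * (8 * n * Ω) ≤ 1 → phis a s z ≠ 0 ∧ (phi a s z = 0 → s = pv σ z) := by
  sorry

end Pool.Agent.H8.Alm
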