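import Mathlib

/-!
# Definitions for the theorem that almost all plane curves of degree at least 6 have no integer points
-/

namespace Pool.Agent.H8.Alm

open Polynomial

/-- Index set of the monomials `x^i y^j` with `i + j ≤ n`. -/
abbrev Ix (n : ℕ) : Type := {p : Fin (n + 1) × Fin (n + 1) // (p.1 : ℕ) + (p.2 : ℕ) ≤ n}

/-- Coefficient vectors with all entries in `[-H, H]`. -/
noncomputable def box (n H : ℕ) : Finset (Ix n → ℤ) :=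
  Fintype.piFinset fun _ => Finset.Icc (-(H : ℤ)) (H : ℤ)

/-- The value at `(x, y)` of the polynomial `∑ a_{ij} x^i y^j`. -/
noncomputable def pF {n : ℕ} {T : Type*} [CommRing T] (a : Ix n → ℤ) (x y : T) : T :=
  ∑ p : Ix n, (a p : T) * x ^ (p.1.1 : ℕ) * y ^ (p.1.2 : ℕ)

/-- The value at `(x, y)` of the partial derivative in `x`. -/
noncomputable def pFx {n : ℕ} {T : Type*} [CommRing T] (a : Ix n → ℤ) (x y : T) : T :=
  ∑ p : Ix n, (a p : T) * ((p.1.1 : ℕ) : T) * x ^ ((p.1.1 : ℕ) - 1) * y ^ (p.1.2 : ℕ)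

/-- `phi a s z = ∑ a_{ij} s^i z^{n-i-j}`, so that `F(x,y) = y^n phi (x/y) (1/y)`. -/
noncomputable def phi {n : ℕ} {T : Type*} [CommRing T] (a : Ix n → ℤ) (s z : T) : T :=
  ∑ p : Ix n, (a p : T) * s ^ (p.1.1 : ℕ) * z ^ (n - (p.1.1 : ℕ) - (p.1.2 : ℕ))

/-- The partial derivative of `phi` in `s`. -/
noncomputable def phis {n : ℕ} {T : Type*} [CommRing T] (a : Ix n → ℤ) (s z : T) : T :=
  ∑ p : Ix n, (a p : T) * ((p.1.1 : ℕ) : T) * s ^ ((p.1.1 : ℕ) - 1) *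
    z ^ (n - (p.1.1 : ℕ) - (p.1.2 : ℕ))

/-- The top degree form, dehomogenised: `∑_{i+j=n} a_{ij} X^i`. -/
noncomputable def topf {n : ℕ} (a : Ix n → ℤ) : ℤ[X] :=
  ∑ p : Ix n, if (p.1.1 : ℕ) + (p.1.2 : ℕ) = n then C (a p) * X ^ (p.1.1 : ℕ) else 0

/-- `ω(α) = f'(α)` for the top form `f`. -/
noncomputable def om {n : ℕ} (a : Ix n → ℤ) (α : ℂ) : ℂ := aeval α (derivative (topf a))

/-- `σ` is the branch at infinity of `F = 0` with leading coefficient `α`. -/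
def IsBranch {n : ℕ} (a : Ix n → ℤ) (α : ℂ) (σ : PowerSeries ℂ) : Prop :=
  PowerSeries.constantCoeff σ = α ∧ phi a σ (PowerSeries.X : PowerSeries ℂ) = 0

/-- The nondegeneracy quantity of a branch (the point at infinity is not sextactic). -/
noncomputable def Wq (γ δ c3 c4 : ℂ) : ℂ := γ * (γ ^ 2 * c4 - 3 * γ * δ * c3 + 2 * δ ^ 3)

/-- index `(n,0)` -/
def ixLead (n : ℕ) : Ix n := ⟨(⟨n, by omega⟩, ⟨0, by omega⟩), by simp⟩

/-- index `(0,j)` -/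
def ixY (n j : ℕ) (h : j ≤ n) : Ix n := ⟨(⟨0, by omega⟩, ⟨j, by omega⟩), by simpa using h⟩

/-- Typical coefficient vectors. -/
structure Typ (n : ℕ) (K : ℝ) (H : ℕ) (a : Ix n → ℤ) : Prop where
  lead : (H : ℝ) ≤ K * |(a (ixLead n) : ℝ)|
  irr : Irreducible ((topf a).map (Int.castRingHom ℚ))
  der : ∀ α : ℂ, aeval α (topf a) = 0 → (H : ℝ) ≤ K * ‖om a α‖
  gam : ∀ α : ℂ, aeval α (topf a) = 0 → ∀ σ, IsBranch a α σ → 1 ≤ K * ‖PowerSeries.coeff 2 σ‖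
  wro : ∀ α : ℂ, aeval α (topf a) = 0 → ∀ σ, IsBranch a α σ →
    1 ≤ K * ‖Wq (PowerSeries.coeff 2 σ) (PowerSeries.coeff 3 σ) (PowerSeries.coeff 4 σ)
      (PowerSeries.coeff 5 σ)‖

/-- value of a power series at a complex number -/
noncomputable def pv (σ : PowerSeries ℂ) (z : ℂ) : ℂ := ∑' j, PowerSeries.coeff j σ * z ^ j

/-- the monomials `1, y, y², x, xy, x²` -/
def gmon {T : Type*} [CommRing T] (x y : T) : Fin 6 → T := ![1, y, y ^ 2, x, x * y, x ^ 2]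

/-- the same monomials times `z²`, in the coordinates `s = x/y`, `z = 1/y` -/
noncomputable def Gam (σ : PowerSeries ℂ) : Fin 6 → PowerSeries ℂ :=
  ![PowerSeries.X ^ 2, PowerSeries.X, 1, PowerSeries.X * σ, σ, σ ^ 2]

/-- `h_i = ∑_j [z^i]Γ_j(σ₂) · Ũ_j(σ₁, z)`, `Ũ_j = ∑ u_{jbc} s^b z^c`. -/
noncomputable def hser {n : ℕ} (D : ℕ) (u : Fin 6 → Fin n → ℕ → ℤ) (σ₁ σ₂ : PowerSeries ℂ)
    (i : ℕ) : PowerSeries ℂ :=
  ∑ j : Fin 6, PowerSeries.C (PowerSeries.coeff i (Gam σ₂ j)) *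
    ∑ b : Fin n, ∑ c ∈ Finset.range (D + 1),
      PowerSeries.C ((u j b c : ℤ) : ℂ) * σ₁ ^ (b : ℕ) * PowerSeries.X ^ c

/-- `a(x,y) = ∑_j g_j U_j(x,y)`, `U_j = ∑ u_{jbc} x^b y^{D-b-c}`. -/
noncomputable def auxv {n : ℕ} {T : Type*} [CommRing T] (D : ℕ) (u : Fin 6 → Fin n → ℕ → ℤ)
    (g : Fin 6 → ℤ) (x y : T) : T :=
  ∑ j : Fin 6, (g j : T) * ∑ b : Fin n, ∑ c ∈ Finset.range (D + 1),
    ((u j b c : ℤ) : T) * x ^ (b : ℕ) * y ^ (D - (b : ℕ) - c)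

end Pool.Agent.H8.Alm
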