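import Pool.Agent.H8.Alm.Defs

/-! # Module 6: Liouville and conics with small coefficients -/

namespace Pool.Agent.H8.Alm

open Polynomial

/-- **Module 6a.** -/
theorem liouville (n : ℕ) : ∃ κ : ℕ, ∀ (B : ℕ), 2 ≤ B →
    ∀ f : ℤ[X], f.Monic → f.natDegree = n → (∀ i, |f.coeff i| ≤ (B : ℤ)) → Irreducible f →
    ∀ α : ℂ, aeval α f = 0 → ∀ Q : ℕ, 1 ≤ Q → ∀ p : ℤ[X], p ≠ 0 → p.natDegree < n →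
    (∀ i, |p.coeff i| ≤ (Q : ℤ)) → 1 ≤ ((B * Q : ℕ) : ℝ) ^ κ * ‖aeval α p‖ := by
  sorry

/-- **Module 6b.** -/
theorem conic_nonvanish (n κ₀ : ℕ) (hn : 3 ≤ n) : ∃ κ : ℕ, ∀ (B : ℕ), 2 ≤ B →
    ∀ f : ℤ[X], f.Monic → f.natDegree = n → (∀ i, |f.coeff i| ≤ (B : ℤ)) → Irreducible f →
    ∀ α : ℂ, aeval α f = 0 → ∀ Q : ℕ, 1 ≤ Q → ∀ q : Fin 6 → ℤ, q ≠ 0 →
    (∀ j, |q j| ≤ (Q : ℤ)) → ∀ x y : ℤ, ‖(x : ℂ) - α * y‖ ≤ (B : ℝ) ^ κ₀ →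
    ((B * Q : ℕ) : ℝ) ^ κ ≤ |(y : ℝ)| → ∑ j, q j * gmon x y j ≠ 0 := by
  sorry

end Pool.Agent.H8.Alm
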