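import Pool.Agent.H8.Alm.Defs

namespace Pool.Agent.H8.Alm

open Polynomial
open scoped Polynomial.Bivariate

/-- **Module 7e.** Lower bound by integrality and the maximum principle. -/
theorem lower_bound (n : ℕ) (hn : 2 ≤ n) : ∃ κ : ℕ, ∀ (B : ℕ), 2 ≤ B →
    ∀ (a : Ix n → ℤ), a (ixLead n) = 1 → (∀ p, |a p| ≤ (B : ℤ)) →
    ∀ (x₁ y₁ : ℤ), pF a x₁ y₁ = 0 → pFx a x₁ y₁ ≠ 0 → 2 ≤ |y₁| →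
    ∀ ξ : PowerSeries ℚ, PowerSeries.constantCoeff ξ = x₁ →
    pF a ξ (PowerSeries.C (y₁ : ℚ) + PowerSeries.X) = 0 →
    ∀ (D : ℕ) (u : Fin 6 → Fin n → ℕ → ℤ) (g : Fin 6 → ℤ) (k : ℕ),
    PowerSeries.X ^ k ∣ auxv D u g ξ (PowerSeries.C (y₁ : ℚ) + PowerSeries.X) →
    PowerSeries.coeff k (auxv D u g ξ (PowerSeries.C (y₁ : ℚ) + PowerSeries.X)) ≠ 0 →
    ∀ φ : ℂ → ℂ, DifferentiableOn ℂ φ (Metric.ball (y₁ : ℂ) (2 * |(y₁ : ℝ)| / 3)) →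
    (∀ y ∈ Metric.ball (y₁ : ℂ) (2 * |(y₁ : ℝ)| / 3), pF a (φ y) y = 0) → φ y₁ = x₁ →
    ∀ M : ℝ, (∀ y : ℂ, ‖y - y₁‖ = |(y₁ : ℝ)| / 2 → ‖auxv D u g (φ y) y‖ ≤ M) →
    1 ≤ ((B : ℝ) ^ κ * |(y₁ : ℝ)| ^ (n - 2)) ^ k * M := by
  sorry

end Pool.Agent.H8.Alm
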