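import Pool.Agent.H8.Alm.Defs

namespace Pool.Agent.H8.Alm

open Polynomial
open scoped Polynomial.Bivariate

/-- Evaluation of a polynomial in `y` (inner) and `x` (outer). -/
noncomputable def bi {T : Type*} [CommRing T] (y x : T) : ℤ[X][Y] →+* T :=
  eval₂RingHom (eval₂RingHom (Int.castRingHom T) y) x

/-- **Module 7c.** Norm bound: a polynomial of small height vanishes to small order at a point of
large height. `Q` bounds the coefficients, `D` all degrees. -/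
theorem norm_bound (n : ℕ) (hn : 1 ≤ n) : ∃ κ : ℕ, ∀ (B : ℕ), 2 ≤ B →
    ∀ (a : Ix n → ℤ), a (ixLead n) = 1 → (∀ p, |a p| ≤ (B : ℤ)) → Irreducible (topf a) →
    ∀ (x₁ y₁ : ℤ), 1 ≤ |y₁| → ∀ ξ : PowerSeries ℚ, PowerSeries.constantCoeff ξ = x₁ →
    pF a ξ (PowerSeries.C (y₁ : ℚ) + PowerSeries.X) = 0 →
    ∀ (R : ℤ[X][Y]) (D Q k : ℕ), 1 ≤ D → 1 ≤ Q → R.natDegree ≤ D →
    (∀ i, (R.coeff i).natDegree ≤ D) → (∀ i j, |(R.coeff i).coeff j| ≤ (Q : ℤ)) →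
    bi (PowerSeries.C (y₁ : ℚ) + PowerSeries.X) ξ R ≠ 0 →
    PowerSeries.X ^ k ∣ bi (PowerSeries.C (y₁ : ℚ) + PowerSeries.X) ξ R →
    |(y₁ : ℝ)| ^ k ≤ (Q : ℝ) ^ n * (B : ℝ) ^ (κ * D) := by
  sorry

end Pool.Agent.H8.Alm
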