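import Pool.Agent.H8.Alm.Wronskian
import Pool.Agent.H8.Alm.NormBound

namespace Pool.Agent.H8.Alm

open Polynomial
open scoped Polynomial.Bivariate

/-- **Module 7d.** Order of vanishing of the auxiliary function. -/
theorem order_bound (n : ℕ) (hn : 1 ≤ n) : ∃ κ : ℕ, ∀ (B : ℕ), 2 ≤ B →
    ∀ (a : Ix n → ℤ), a (ixLead n) = 1 → (∀ p, |a p| ≤ (B : ℤ)) → Irreducible (topf a) →
    ∀ (x₁ y₁ : ℤ), pF a x₁ y₁ = 0 → pFx a x₁ y₁ ≠ 0 → 2 ≤ |y₁| →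
    ∀ ξ : PowerSeries ℚ, PowerSeries.constantCoeff ξ = x₁ →
    pF a ξ (PowerSeries.C (y₁ : ℚ) + PowerSeries.X) = 0 →
    ∀ (D Q : ℕ), 1 ≤ D → 1 ≤ Q → ∀ (u : Fin 6 → Fin n → ℕ → ℤ),
    (∀ j (b : Fin n) c, D < (b : ℕ) + c → u j b c = 0) → (∀ j b c, |u j b c| ≤ (Q : ℤ)) →
    ∀ g : Fin 6 → ℤ, (∃ b c, ∑ j, g j * u j b c ≠ 0) →
    ∃ k : ℕ, PowerSeries.X ^ k ∣ auxv D u g ξ (PowerSeries.C (y₁ : ℚ) + PowerSeries.X) ∧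
      PowerSeries.coeff k (auxv D u g ξ (PowerSeries.C (y₁ : ℚ) + PowerSeries.X)) ≠ 0 ∧
      |(y₁ : ℝ)| ^ k ≤ |(y₁ : ℝ)| ^ 5 * ((B * Q : ℕ) : ℝ) ^ (κ * D) := by
  sorry

end Pool.Agent.H8.Alm
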