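import Pool.Agent.H8.Alm.LocalBranch
import Pool.Agent.H8.Alm.OrderBound
import Pool.Agent.H8.Alm.LowerBound

namespace Pool.Agent.H8.Alm

open Polynomial
open scoped Polynomial.Bivariate

/-- **Module 7.** -/
theorem local_step (n : ℕ) (hn : 2 ≤ n) : ∃ κ : ℕ, ∀ (B : ℕ), 2 ≤ B →
    ∀ (a : Ix n → ℤ), a (ixLead n) = 1 → (∀ p, |a p| ≤ (B : ℤ)) → Irreducible (topf a) →
    ∀ (x₁ y₁ : ℤ), pF a x₁ y₁ = 0 → pFx a x₁ y₁ ≠ 0 → 2 ≤ |y₁| →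
    ∀ (D Q : ℕ), 1 ≤ D → 1 ≤ Q → ∀ (u : Fin 6 → Fin n → ℕ → ℤ),
    (∀ j (b : Fin n) c, D < (b : ℕ) + c → u j b c = 0) → (∀ j b c, |u j b c| ≤ (Q : ℤ)) →
    ∀ g : Fin 6 → ℤ, (∃ b c, ∑ j, g j * u j b c ≠ 0) →
    ∀ φ : ℂ → ℂ, DifferentiableOn ℂ φ (Metric.ball (y₁ : ℂ) (2 * |(y₁ : ℝ)| / 3)) →
    (∀ y ∈ Metric.ball (y₁ : ℂ) (2 * |(y₁ : ℝ)| / 3), pF a (φ y) y = 0) → φ y₁ = x₁ →
    ∀ M : ℝ, (∀ y : ℂ, ‖y - y₁‖ = |(y₁ : ℝ)| / 2 → ‖auxv D u g (φ y) y‖ ≤ M) →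
    ∃ k : ℕ, |(y₁ : ℝ)| ^ k ≤ |(y₁ : ℝ)| ^ 5 * ((B * Q : ℕ) : ℝ) ^ (κ * D) ∧
      1 ≤ ((B : ℝ) ^ κ * |(y₁ : ℝ)| ^ (n - 2)) ^ k * M := by
  obtain ⟨κ₁, h₁⟩ := order_bound n (by omega)
  obtain ⟨κ₂, h₂⟩ := lower_bound n hn
  refine ⟨κ₁ + κ₂, ?_⟩
  intro B hB a ha hab hirr x₁ y₁ h0 hx hy D Q hD hQ u hu huQ g hg φ hφ hφF hφ1 M hM
  obtain ⟨ξ, hX0, hX⟩ := exists_local_branch a x₁ y₁ h0 hx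
  obtain ⟨k, hk1, hk2, hk3⟩ := h₁ B hB a ha hab hirr x₁ y₁ h0 hx hy ξ hX0 hX D Q hD hQ u hu huQ g hg
  have h4 := h₂ B hB a ha hab x₁ y₁ h0 hx hy ξ hX0 hX D u g k hk1 hk2 φ hφ hφF hφ1 M hM
  have hM0 : 0 ≤ M := by
    have := hM (y₁ + (|(y₁ : ℝ)| / 2 : ℝ)) (by simp)
    exact le_trans (norm_nonneg _) this
  have hBr : (2 : ℝ) ≤ B := by exact_mod_cast hB
  have hQr : (1 : ℝ) ≤ Q := by exact_mod_cast hQ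
  refine ⟨k, hk3.trans ?_, h4.trans ?_⟩
  · gcongr
    · push_cast; nlinarith
    · omega
  · gcongr
    · linarith
    · omega

end Pool.Agent.H8.Alm
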