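import Pool.Agent.H8.Alm.Siegel
import Pool.Agent.H8.Alm.Analytic
import Pool.Agent.H8.Alm.Liouville
import Pool.Agent.H8.Alm.Local
import Pool.Agent.H8.Alm.Capture

/-! # Module 9: the Thue principle for two curves with the same point at infinity -/

namespace Pool.Agent.H8.Alm

open Polynomial

/-- **Module 9.** -/
theorem thue_principle (n : ℕ) (hn : 3 ≤ n) : ∃ κ K₀ : ℕ, ∀ (B : ℕ), 2 ≤ B →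
    ∀ (a₁ a₂ : Ix n → ℤ), a₁ (ixLead n) = 1 → a₂ (ixLead n) = 1 →
    (∀ p, |a₁ p| ≤ (B : ℤ)) → (∀ p, |a₂ p| ≤ (B : ℤ)) → topf a₁ = topf a₂ →
    Irreducible (topf a₁) → ∀ α : ℂ, aeval α (topf a₁) = 0 →
    ∀ x₁ y₁ x₂ y₂ : ℤ, pF a₁ x₁ y₁ = 0 → pF a₂ x₂ y₂ = 0 →
    (B : ℝ) ^ κ ≤ |(y₁ : ℝ)| → (B : ℝ) ^ κ ≤ |(y₂ : ℝ)| →
    ‖(x₁ : ℂ) / y₁ - α‖ * (B : ℝ) ^ κ ≤ 1 → ‖(x₂ : ℂ) / y₂ - α‖ * (B : ℝ) ^ κ ≤ 1 →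
    |(y₂ : ℝ)| ≤ |(y₁ : ℝ)| ^ K₀ := by
  sorry

end Pool.Agent.H8.Alm
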