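import Pool.Agent.H8.Alm.BranchUnique

/-! # Module 8: most coefficient vectors are typical -/

namespace Pool.Agent.H8.Alm

open Polynomial

open Classical in
/-- **Module 8a.** -/
theorem fiber_der (n : ℕ) (hn : 2 ≤ n) : ∃ m C : ℕ, ∀ (H : ℕ), 1 ≤ H → ∀ K : ℝ, 1 ≤ K →
    ∀ b ∈ box n H, (H : ℝ) ≤ K * |(b (ixLead n) : ℝ)| →
    (((Finset.Icc (-(H : ℤ)) H).filter fun v => ∃ α : ℂ,
      aeval α (topf (Function.update b (ixY n n le_rfl) v)) = 0 ∧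
      K ^ m * ‖om (Function.update b (ixY n n le_rfl) v) α‖ < H).card : ℝ) ≤ C * (H / K + 1) := by
  sorry

open Classical in
/-- **Module 8b.** -/
theorem fiber_gam (n : ℕ) (hn : 3 ≤ n) : ∃ m C : ℕ, ∀ (H : ℕ), 1 ≤ H → ∀ K : ℝ, 1 ≤ K →
    ∀ b ∈ box n H, (H : ℝ) ≤ K * |(b (ixLead n) : ℝ)| →
    (∀ α : ℂ, aeval α (topf b) = 0 → (H : ℝ) ≤ K * ‖om b α‖) →
    (((Finset.Icc (-(H : ℤ)) H).filter fun v => ∃ (α : ℂ) (σ : PowerSeries ℂ),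
      aeval α (topf b) = 0 ∧ IsBranch (Function.update b (ixY n (n - 2) (by omega)) v) α σ ∧
      K ^ m * ‖PowerSeries.coeff 2 σ‖ < 1).card : ℝ) ≤ C * (H / K + 1) := by
  sorry

open Classical in
/-- **Module 8c.** -/
theorem fiber_wro (n : ℕ) (hn : 6 ≤ n) : ∃ m C : ℕ, ∀ (H : ℕ), 1 ≤ H → ∀ K : ℝ, 1 ≤ K →
    ∀ b ∈ box n H, (H : ℝ) ≤ K * |(b (ixLead n) : ℝ)| →
    (∀ α : ℂ, aeval α (topf b) = 0 → (H : ℝ) ≤ K * ‖om b α‖) →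
    (∀ α : ℂ, aeval α (topf b) = 0 → ∀ σ, IsBranch b α σ → 1 ≤ K * ‖PowerSeries.coeff 2 σ‖) →
    (((Finset.Icc (-(H : ℤ)) H).filter fun v => ∃ (α : ℂ) (σ : PowerSeries ℂ),
      aeval α (topf b) = 0 ∧ IsBranch (Function.update b (ixY n (n - 5) (by omega)) v) α σ ∧
      K ^ m * ‖Wq (PowerSeries.coeff 2 σ) (PowerSeries.coeff 3 σ) (PowerSeries.coeff 4 σ)
        (PowerSeries.coeff 5 σ)‖ < 1).card : ℝ) ≤ C * (H / K + 1) := by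
  sorry

open Classical in
/-- **Module 8d.** Most top forms are irreducible. -/
theorem irr_count (n : ℕ) (hn : 2 ≤ n) : ∃ C : ℕ, ∀ (H : ℕ), 1 ≤ H →
    (((box n H).filter fun a => a (ixLead n) ≠ 0 ∧
      ¬ Irreducible ((topf a).map (Int.castRingHom ℚ))).card : ℝ) * Real.sqrt H ≤
      C * (box n H).card := by
  sorry

open Classical in
/-- **Module 8e.** -/
theorem typ_count (n : ℕ) (hn : 6 ≤ n) : ∃ c C : ℕ, 1 ≤ c ∧ ∀ (H : ℕ), 1 ≤ H → ∀ K : ℝ,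
    1 ≤ K → K ^ 2 ≤ H →
    (((box n H).filter fun a => ¬ Typ n (K ^ c) H a).card : ℝ) * K ≤ C * (box n H).card := by
  sorry

end Pool.Agent.H8.Alm
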