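import Pool.Agent.H8.Alm.Gap
import Pool.Agent.H8.Alm.Thue
import Pool.Agent.H8.Alm.Typical

/-! # Module 10: assembly -/

namespace Pool.Agent.H8.Alm

open Polynomial

open Classical in
/-- **Module 10a.** For fixed coefficients except the constant one, only `O(1)` values of the
constant coefficient give a typical polynomial with a large zero. -/
theorem fiber_main (n : ℕ) (hn : 6 ≤ n) : ∃ κ : ℕ, ∀ κ₂ : ℕ, ∃ C : ℕ, ∀ (H : ℕ) (K : ℝ),
    2 ≤ K → (H : ℝ) ≤ K ^ κ₂ → ∀ b ∈ box n H,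
    ((Finset.Icc (-(H : ℤ)) H).filter fun v =>
      Typ n K H (Function.update b (ixY n 0 (Nat.zero_le _)) v) ∧
      ∃ x y : ℤ, pF (Function.update b (ixY n 0 (Nat.zero_le _)) v) x y = 0 ∧
        K ^ κ ≤ |(y : ℝ)|).card ≤ C := by
  sorry

open Classical in
/-- **Main theorem.** -/
theorem almost_all (n : ℕ) (hn : 6 ≤ n) : ∃ C δ : ℝ, 0 < δ ∧ ∀ H : ℕ, 1 ≤ H →
    (((box n H).filter fun a => ∃ x y : ℤ, pF a x y = 0).card : ℝ) ≤
      C * (H : ℝ) ^ (-δ) * (box n H).card := by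
  sorry

end Pool.Agent.H8.Alm
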