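import Pool.Agent.H8.Alm.Defs

namespace Pool.Agent.H8.Alm

open Polynomial

section Fix

variable {R : Type*} [CommRing R]

/-- one monomial of the fixed point map contracts -/
theorem fp_contr {w w' : PowerSeries R} (hw : PowerSeries.constantCoeff w = 0)
    (hw' : PowerSeries.constantCoeff w' = 0) {m : ℕ}
    (h : (PowerSeries.X : PowerSeries R) ^ m ∣ w - w') (k l : ℕ) (hkl : 2 ≤ k + 2 * l) :
    (PowerSeries.X : PowerSeries R) ^ (m + 1) ∣
      w ^ k * PowerSeries.X ^ l - w' ^ k * PowerSeries.X ^ l := by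
  rw [← sub_mul]
  rcases Nat.eq_zero_or_pos l with hl | hl
  · subst hl
    rw [pow_zero, mul_one]
    have hX : (PowerSeries.X : PowerSeries R) ∣ w := PowerSeries.X_dvd_iff.2 hw
    have hX' : (PowerSeries.X : PowerSeries R) ∣ w' := PowerSeries.X_dvd_iff.2 hw'
    obtain ⟨k', rfl⟩ : ∃ k', k = k' + 2 := ⟨k - 2, by omega⟩
    have hgeom := (Commute.all w w').geom_sum₂_mul (k' + 2)
    rw [← hgeom, mul_comm, pow_succ]
    refine mul_dvd_mul h (Finset.dvd_sum fun i hi => ?_)
    rw [Finset.mem_range] at hi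
    rcases Nat.eq_zero_or_pos i with h0 | h0
    · subst h0
      exact Dvd.dvd.mul_left (dvd_pow hX' (by omega)) _
    · exact Dvd.dvd.mul_right (dvd_pow hX (by omega)) _
  · rw [pow_succ]
    exact mul_dvd_mul (h.trans (sub_dvd_pow_sub_pow w w' k)) (dvd_pow_self _ (by omega))

variable {ι : Type*} [Fintype ι] (ψ : ι → R) (k l : ι → ℕ)

/-- the fixed point map -/
noncomputable def fpT (w : PowerSeries R) : PowerSeries R :=
  ∑ p, PowerSeries.C (ψ p) * w ^ k p * PowerSeries.X ^ l p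

theorem fpT_contr (h : ∀ p, 2 ≤ k p + 2 * l p) {w w' : PowerSeries R}
    (hw : PowerSeries.constantCoeff w = 0) (hw' : PowerSeries.constantCoeff w' = 0) {m : ℕ}
    (hd : (PowerSeries.X : PowerSeries R) ^ m ∣ w - w') :
    (PowerSeries.X : PowerSeries R) ^ (m + 1) ∣ fpT ψ k l w - fpT ψ k l w' := by
  unfold fpT
  rw [← Finset.sum_sub_distrib]
  refine Finset.dvd_sum fun p _ => ?_
  rw [mul_assoc, mul_assoc, ← mul_sub]
  exact Dvd.dvd.mul_left (fp_contr hw hw' hd _ _ (h p)) _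

theorem fpT_const (h : ∀ p, 2 ≤ k p + 2 * l p) {w : PowerSeries R}
    (hw : PowerSeries.constantCoeff w = 0) : PowerSeries.constantCoeff (fpT ψ k l w) = 0 := by
  unfold fpT
  rw [map_sum]
  refine Finset.sum_eq_zero fun p _ => ?_
  rw [map_mul, map_mul, map_pow, map_pow, hw, PowerSeries.constantCoeff_X]
  have := h p
  by_cases hk : k p = 0
  · rw [zero_pow (n := l p) (by omega), mul_zero]
  · rw [zero_pow hk, mul_zero, zero_mul]

/-- the iterates -/
noncomputable def fpI : ℕ → PowerSeries R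
  | 0 => 0
  | m + 1 => fpT ψ k l (fpI m)

theorem fpI_const (h : ∀ p, 2 ≤ k p + 2 * l p) (m : ℕ) :
    PowerSeries.constantCoeff (fpI ψ k l m) = 0 := by
  induction m with
  | zero => simp [fpI]
  | succ m ih => exact fpT_const ψ k l h ih

theorem fpI_step (h : ∀ p, 2 ≤ k p + 2 * l p) (m : ℕ) :
    (PowerSeries.X : PowerSeries R) ^ (m + 1) ∣ fpI ψ k l (m + 1) - fpI ψ k l m := by
  induction m with
  | zero =>
    rw [pow_one, PowerSeries.X_dvd_iff, map_sub, fpI_const ψ k l h, fpI_const ψ k l h, sub_zero]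
  | succ m ih =>
    exact fpT_contr ψ k l h (fpI_const ψ k l h _) (fpI_const ψ k l h _) ih

theorem fpI_coeff (h : ∀ p, 2 ≤ k p + 2 * l p) {i m : ℕ} (him : i ≤ m) :
    PowerSeries.coeff i (fpI ψ k l m) = PowerSeries.coeff i (fpI ψ k l i) := by
  induction m, him using Nat.le_induction with
  | base => rfl
  | succ m hm ih =>
    rw [← ih]
    have h1 := (PowerSeries.X_pow_dvd_iff.1 (fpI_step ψ k l h m)) i (by omega)
    rw [map_sub] at h1
    exact sub_eq_zero.1 h1

/-- the fixed point -/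
noncomputable def fpW : PowerSeries R := PowerSeries.mk fun i => PowerSeries.coeff i (fpI ψ k l i)

theorem fpW_sub (h : ∀ p, 2 ≤ k p + 2 * l p) (m : ℕ) :
    (PowerSeries.X : PowerSeries R) ^ (m + 1) ∣ fpW ψ k l - fpI ψ k l m := by
  rw [PowerSeries.X_pow_dvd_iff]
  intro i hi
  rw [map_sub, fpW, PowerSeries.coeff_mk, fpI_coeff ψ k l h (by omega : i ≤ m), sub_self]

theorem fpW_const (h : ∀ p, 2 ≤ k p + 2 * l p) : PowerSeries.constantCoeff (fpW ψ k l) = 0 := by
  rw [← PowerSeries.coeff_zero_eq_constantCoeff_apply, fpW, PowerSeries.coeff_mk]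
  simp [fpI]

theorem fpW_fix (h : ∀ p, 2 ≤ k p + 2 * l p) : fpW ψ k l = fpT ψ k l (fpW ψ k l) := by
  rw [← sub_eq_zero]
  ext i
  rw [map_zero]
  have h1 := fpW_sub ψ k l h (i + 1)
  have h2 := fpT_contr ψ k l h (fpW_const ψ k l h) (fpI_const ψ k l h i) (fpW_sub ψ k l h i)
  have h3 : (PowerSeries.X : PowerSeries R) ^ (i + 1 + 1) ∣
      fpW ψ k l - fpT ψ k l (fpW ψ k l) := by
    have h4 : fpW ψ k l - fpT ψ k l (fpW ψ k l) =
        (fpW ψ k l - fpI ψ k l (i + 1)) - (fpT ψ k l (fpW ψ k l) - fpT ψ k l (fpI ψ k l i)) := by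
      show _ = (fpW ψ k l - fpT ψ k l (fpI ψ k l i)) -
        (fpT ψ k l (fpW ψ k l) - fpT ψ k l (fpI ψ k l i))
      ring
    rw [h4]
    exact dvd_sub h1 h2
  exact PowerSeries.X_pow_dvd_iff.1 h3 i (by omega)

/-! ### the norm bound -/

/-- weighted norm of the first `J` coefficients -/
noncomputable def fpS (N : RingSeminorm R) (s : ℝ) (J : ℕ) (v : PowerSeries R) : ℝ :=
  ∑ j ∈ Finset.range J, N (PowerSeries.coeff j v) * s ^ j

theorem fpS_nonneg (N : RingSeminorm R) {s : ℝ} (hs : 0 ≤ s) (J : ℕ) (v : PowerSeries R) :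
    0 ≤ fpS N s J v :=
  Finset.sum_nonneg fun _ _ => mul_nonneg (apply_nonneg N _) (pow_nonneg hs _)

omit [Fintype ι] in
theorem fpS_sum (N : RingSeminorm R) {s : ℝ} (hs : 0 ≤ s) (J : ℕ) (t : Finset ι)
    (v : ι → PowerSeries R) : fpS N s J (∑ p ∈ t, v p) ≤ ∑ p ∈ t, fpS N s J (v p) := by
  classical
  induction t using Finset.induction_on with
  | empty => simp [fpS]
  | insert a t ha ih =>
    rw [Finset.sum_insert ha, Finset.sum_insert ha]
    refine le_trans ?_ (add_le_add le_rfl ih)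
    unfold fpS
    rw [← Finset.sum_add_distrib]
    refine Finset.sum_le_sum fun j _ => ?_
    rw [map_add, ← add_mul]
    exact mul_le_mul_of_nonneg_right (map_add_le_add N _ _) (pow_nonneg hs _)

theorem fpN_sum {κ : Type*} (N : RingSeminorm R) (t : Finset κ) (v : κ → R) :
    N (∑ p ∈ t, v p) ≤ ∑ p ∈ t, N (v p) := by
  classical
  induction t using Finset.induction_on with
  | empty => simp
  | insert a t ha ih =>
    rw [Finset.sum_insert ha, Finset.sum_insert ha]
    exact (map_add_le_add N _ _).trans (add_le_add le_rfl ih)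

theorem fpS_mul (N : RingSeminorm R) {s : ℝ} (hs : 0 ≤ s) (J : ℕ) (v v' : PowerSeries R) :
    fpS N s J (v * v') ≤ fpS N s J v * fpS N s J v' := by
  set g : ℕ × ℕ → ℝ := fun p =>
    (N (PowerSeries.coeff p.1 v) * s ^ p.1) * (N (PowerSeries.coeff p.2 v') * s ^ p.2) with hg
  have hg0 : ∀ p, 0 ≤ g p := fun p =>
    mul_nonneg (mul_nonneg (apply_nonneg N _) (pow_nonneg hs _))
      (mul_nonneg (apply_nonneg N _) (pow_nonneg hs _))
  have h1 : fpS N s J (v * v') ≤ ∑ j ∈ Finset.range J, ∑ p ∈ Finset.HasAntidiagonal.antidiagonal j, g p := by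
    refine Finset.sum_le_sum fun j _ => ?_
    rw [PowerSeries.coeff_mul]
    have h2 : N (∑ p ∈ Finset.HasAntidiagonal.antidiagonal j, PowerSeries.coeff p.1 v * PowerSeries.coeff p.2 v') ≤
        ∑ p ∈ Finset.HasAntidiagonal.antidiagonal j, N (PowerSeries.coeff p.1 v * PowerSeries.coeff p.2 v') :=
      fpN_sum N _ _
    refine (mul_le_mul_of_nonneg_right h2 (pow_nonneg hs _)).trans ?_
    rw [Finset.sum_mul]
    refine Finset.sum_le_sum fun p hp => ?_
    have e : s ^ j = s ^ p.1 * s ^ p.2 := by rw [← pow_add, Finset.HasAntidiagonal.mem_antidiagonal.1 hp]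
    rw [e]
    calc N (PowerSeries.coeff p.1 v * PowerSeries.coeff p.2 v') * (s ^ p.1 * s ^ p.2)
        ≤ (N (PowerSeries.coeff p.1 v) * N (PowerSeries.coeff p.2 v')) * (s ^ p.1 * s ^ p.2) :=
          mul_le_mul_of_nonneg_right (map_mul_le_mul N _ _) (by positivity)
      _ = g p := by rw [hg]; ring
  refine h1.trans ?_
  unfold fpS
  rw [Finset.sum_mul_sum, ← Finset.sum_product']
  set t : Finset (ℕ × ℕ) :=
    (Finset.range J ×ˢ Finset.range J).filter (fun p => p.1 + p.2 < J) with ht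
  have h2 : ∑ j ∈ Finset.range J, ∑ p ∈ Finset.HasAntidiagonal.antidiagonal j, g p = ∑ p ∈ t, g p := by
    rw [← Finset.sum_fiberwise_of_maps_to (s := t) (t := Finset.range J) (g := fun p => p.1 + p.2)]
    · refine Finset.sum_congr rfl fun j hj => Finset.sum_congr ?_ fun _ _ => rfl
      ext p
      simp only [Finset.mem_range] at hj
      simp only [Finset.HasAntidiagonal.mem_antidiagonal, ht, Finset.mem_filter,
        Finset.mem_product, Finset.mem_range]
      omega
    · intro p hp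
      simp only [ht, Finset.mem_filter, Finset.mem_product, Finset.mem_range] at hp ⊢
      omega
  rw [h2]
  exact Finset.sum_le_sum_of_subset_of_nonneg (Finset.filter_subset _ _) fun p _ _ => hg0 p

theorem fpS_C (N : RingSeminorm R) {s : ℝ} (hs : 0 ≤ s) (J : ℕ) (r : R) :
    fpS N s J (PowerSeries.C r) ≤ N r := by
  unfold fpS
  have h1 : ∀ j ∈ Finset.range J, N (PowerSeries.coeff j (PowerSeries.C r)) * s ^ j ≤
      if j = 0 then N r else 0 := by
    intro j _
    rw [PowerSeries.coeff_C]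
    split_ifs with h
    · subst h; simp
    · simp
  refine (Finset.sum_le_sum h1).trans ?_
  rw [Finset.sum_ite_eq']
  split_ifs
  · exact le_rfl
  · exact apply_nonneg N r

theorem fpS_X (N : RingSeminorm R) {s : ℝ} (hs : 0 ≤ s) (J : ℕ) (v : PowerSeries R) :
    fpS N s J (v * PowerSeries.X) ≤ fpS N s J v * s := by
  cases J with
  | zero => simp [fpS]
  | succ J =>
    have h1 : fpS N s (J + 1) (v * PowerSeries.X) = fpS N s J v * s := by
      unfold fpS
      rw [Finset.sum_range_succ', Finset.sum_mul]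
      simp only [PowerSeries.coeff_succ_mul_X, PowerSeries.coeff_zero_mul_X, map_zero, zero_mul,
        add_zero]
      exact Finset.sum_congr rfl fun j _ => by ring
    rw [h1]
    refine mul_le_mul_of_nonneg_right ?_ hs
    unfold fpS
    rw [Finset.sum_range_succ]
    exact le_add_of_nonneg_right (mul_nonneg (apply_nonneg N _) (pow_nonneg hs _))

theorem fpS_X_pow (N : RingSeminorm R) {s : ℝ} (hs : 0 ≤ s) (J : ℕ) (v : PowerSeries R) (l : ℕ) :
    fpS N s J (v * PowerSeries.X ^ l) ≤ fpS N s J v * s ^ l := by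
  induction l with
  | zero => simp
  | succ l ih =>
    rw [pow_succ, ← mul_assoc, pow_succ, ← mul_assoc]
    exact (fpS_X N hs J _).trans (mul_le_mul_of_nonneg_right ih hs)

theorem fpS_C_mul_pow (N : RingSeminorm R) {s : ℝ} (hs : 0 ≤ s) (J : ℕ) (r : R)
    (v : PowerSeries R) (k : ℕ) : fpS N s J (PowerSeries.C r * v ^ k) ≤ N r * fpS N s J v ^ k := by
  induction k with
  | zero => simpa using fpS_C N hs J r
  | succ k ih =>
    rw [pow_succ, ← mul_assoc, pow_succ, ← mul_assoc]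
    exact (fpS_mul N hs J _ _).trans (mul_le_mul_of_nonneg_right ih (fpS_nonneg N hs J v))

/-- truncation -/
noncomputable def fpTr (J : ℕ) (v : PowerSeries R) : PowerSeries R :=
  PowerSeries.mk fun i => if i < J then PowerSeries.coeff i v else 0

theorem fpTr_sub (J : ℕ) (v : PowerSeries R) :
    (PowerSeries.X : PowerSeries R) ^ J ∣ v - fpTr J v := by
  rw [PowerSeries.X_pow_dvd_iff]
  intro i hi
  rw [map_sub, fpTr, PowerSeries.coeff_mk, if_pos hi, sub_self]

theorem fpTr_const (J : ℕ) {v : PowerSeries R} (hv : PowerSeries.constantCoeff v = 0) :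
    PowerSeries.constantCoeff (fpTr J v) = 0 := by
  rw [← PowerSeries.coeff_zero_eq_constantCoeff_apply, fpTr, PowerSeries.coeff_mk]
  split_ifs
  · rw [PowerSeries.coeff_zero_eq_constantCoeff_apply, hv]
  · rfl

theorem fpS_Tr (N : RingSeminorm R) (s : ℝ) (J : ℕ) (v : PowerSeries R) :
    fpS N s (J + 1) (fpTr J v) = fpS N s J v := by
  unfold fpS
  rw [Finset.sum_range_succ]
  have h1 : PowerSeries.coeff J (fpTr J v) = 0 := by
    rw [fpTr, PowerSeries.coeff_mk, if_neg (lt_irrefl _)]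
  rw [h1, map_zero, zero_mul, add_zero]
  refine Finset.sum_congr rfl fun j hj => ?_
  rw [fpTr, PowerSeries.coeff_mk, if_pos (Finset.mem_range.1 hj)]

theorem fpS_congr (N : RingSeminorm R) (s : ℝ) {J : ℕ} {v v' : PowerSeries R}
    (h : (PowerSeries.X : PowerSeries R) ^ J ∣ v - v') : fpS N s J v = fpS N s J v' := by
  unfold fpS
  refine Finset.sum_congr rfl fun j hj => ?_
  have h1 := PowerSeries.X_pow_dvd_iff.1 h j (Finset.mem_range.1 hj)
  rw [map_sub] at h1
  rw [sub_eq_zero.1 h1]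

theorem fp_bound (h : ∀ p, 2 ≤ k p + 2 * l p) {w : PowerSeries R}
    (hw : PowerSeries.constantCoeff w = 0) (hfix : w = fpT ψ k l w) (N : RingSeminorm R) (Ω : ℝ)
    (hΩ : 1 ≤ Ω) (hN : ∑ p, N (ψ p) ≤ Ω) (J : ℕ) :
    fpS N (1 / (4 * Ω ^ 2)) J w ≤ 1 / (2 * Ω) := by
  have hΩ0 : 0 < Ω := by linarith
  set s : ℝ := 1 / (4 * Ω ^ 2) with hs
  set ρ : ℝ := 1 / (2 * Ω) with hρ
  have hs0 : 0 ≤ s := by positivity
  have hρ0 : 0 ≤ ρ := by positivity
  have hρ1 : ρ ≤ 1 := by
    rw [hρ, div_le_one (by positivity)]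
    linarith
  have hsρ : s = ρ ^ 2 := by
    rw [hs, hρ]
    field_simp
    norm_num
  induction J with
  | zero =>
    simp only [fpS, Finset.range_zero, Finset.sum_empty]
    exact hρ0
  | succ J ih =>
    have h1 : fpS N s (J + 1) w ≤ ∑ p, fpS N s (J + 1)
        (PowerSeries.C (ψ p) * w ^ k p * PowerSeries.X ^ l p) := by
      conv_lhs => rw [hfix]
      exact fpS_sum N hs0 (J + 1) _ _
    have h2 : ∀ p, fpS N s (J + 1) (PowerSeries.C (ψ p) * w ^ k p * PowerSeries.X ^ l p) ≤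
        N (ψ p) * ρ ^ 2 := by
      intro p
      have h3 : (PowerSeries.X : PowerSeries R) ^ (J + 1) ∣
          PowerSeries.C (ψ p) * w ^ k p * PowerSeries.X ^ l p -
          PowerSeries.C (ψ p) * (fpTr J w) ^ k p * PowerSeries.X ^ l p := by
        rw [mul_assoc, mul_assoc, ← mul_sub]
        exact Dvd.dvd.mul_left (fp_contr hw (fpTr_const J hw) (fpTr_sub J w) _ _ (h p)) _
      rw [fpS_congr N s h3]
      refine (fpS_X_pow N hs0 _ _ _).trans ?_
      have h4 := fpS_C_mul_pow N hs0 (J + 1) (ψ p) (fpTr J w) (k p)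
      rw [fpS_Tr] at h4
      have h5 : fpS N s J w ^ k p ≤ ρ ^ k p := pow_le_pow_left₀ (fpS_nonneg N hs0 J w) ih _
      calc fpS N s (J + 1) (PowerSeries.C (ψ p) * fpTr J w ^ k p) * s ^ l p
          ≤ (N (ψ p) * fpS N s J w ^ k p) * s ^ l p :=
            mul_le_mul_of_nonneg_right h4 (pow_nonneg hs0 _)
        _ ≤ (N (ψ p) * ρ ^ k p) * s ^ l p := by
            have := apply_nonneg N (ψ p)
            gcongr
        _ = N (ψ p) * ρ ^ (k p + 2 * l p) := by rw [hsρ, pow_add, pow_mul]; ring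
        _ ≤ N (ψ p) * ρ ^ 2 :=
            mul_le_mul_of_nonneg_left (pow_le_pow_of_le_one hρ0 hρ1 (h p)) (apply_nonneg N _)
    refine h1.trans ((Finset.sum_le_sum fun p _ => h2 p).trans ?_)
    rw [← Finset.sum_mul]
    calc (∑ p, N (ψ p)) * ρ ^ 2 ≤ Ω * ρ ^ 2 := mul_le_mul_of_nonneg_right hN (by positivity)
      _ = ρ / 2 := by
          rw [hρ]
          field_simp
          try norm_num
      _ ≤ ρ := by linarith

end Fix

/-- **Module 1a.** -/
theorem fixpoint_series {R : Type*} [CommRing R] {ι : Type*} [Fintype ι] (ψ : ι → R)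
    (k l : ι → ℕ) (h : ∀ p, 2 ≤ k p + 2 * l p) :
    ∃ w : PowerSeries R, PowerSeries.constantCoeff w = 0 ∧
      w = ∑ p, PowerSeries.C (ψ p) * w ^ k p * PowerSeries.X ^ l p ∧
      ∀ (N : RingSeminorm R) (Ω : ℝ), 1 ≤ Ω → ∑ p, N (ψ p) ≤ Ω →
        ∀ j, N (PowerSeries.coeff j w) ≤ (4 * Ω ^ 2) ^ j := by
  refine ⟨fpW ψ k l, fpW_const ψ k l h, fpW_fix ψ k l h, fun N Ω hΩ hN j => ?_⟩
  have hΩ0 : 0 < Ω := by linarith
  have h1 := fp_bound ψ k l h (fpW_const ψ k l h) (fpW_fix ψ k l h) N Ω hΩ hN (j + 1)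
  have hs0 : (0 : ℝ) ≤ 1 / (4 * Ω ^ 2) := by positivity
  have h2 : N (PowerSeries.coeff j (fpW ψ k l)) * (1 / (4 * Ω ^ 2)) ^ j ≤
      fpS N (1 / (4 * Ω ^ 2)) (j + 1) (fpW ψ k l) := by
    unfold fpS
    rw [Finset.sum_range_succ]
    exact le_add_of_nonneg_left
      (Finset.sum_nonneg fun _ _ => mul_nonneg (apply_nonneg N _) (pow_nonneg hs0 _))
  have h3 : 1 / (2 * Ω) ≤ 1 := by
    rw [div_le_one (by positivity)]
    linarith
  have h4 := h2.trans (h1.trans h3)
  rw [one_div, inv_pow, ← div_eq_mul_inv, div_le_one (by positivity)] at h4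
  exact h4

end Pool.Agent.H8.Alm
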