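import Pool.Agent.H8.Alm.Defs

/-! # Module 2: the gap lemma (six points) -/

namespace Pool.Agent.H8.Alm

/-- **Module 2.** -/
theorem gap_six : ∃ κ : ℕ, ∀ (K : ℝ), 2 ≤ K → ∀ (α β γ δ c3 c4 : ℂ),
    ‖α‖ ≤ K → ‖β‖ ≤ K → ‖γ‖ ≤ K → ‖δ‖ ≤ K → ‖c3‖ ≤ K → ‖c4‖ ≤ K →
    1 ≤ K * ‖γ‖ → 1 ≤ K * ‖Wq γ δ c3 c4‖ → ∀ Y : ℝ, K ^ κ ≤ Y →
    ∀ (x y : Fin 6 → ℤ), Function.Injective (fun i => (x i, y i)) →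
    (∀ i, Y ≤ (y i : ℝ)) → (∀ i, (y i : ℝ) ^ 2 ≤ Y ^ 3) →
    (∀ i, ‖(x i : ℂ) - (α * y i + β + γ / y i + δ / (y i) ^ 2 + c3 / (y i) ^ 3 +
      c4 / (y i) ^ 4)‖ * (y i : ℝ) ^ 5 ≤ K) → False := by
  sorry

end Pool.Agent.H8.Alm
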