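import Pool.Agent.H8.Alm.Fixpoint
import Pool.Agent.H8.Alm.BranchUnique
import Pool.Agent.H8.Alm.AdjNorm

namespace Pool.Agent.H8.Alm

open Polynomial

/-- **Module 3b.** -/
theorem integral_branch (n : ℕ) (hn : 2 ≤ n) : ∃ κ : ℕ, ∀ (B : ℕ), 2 ≤ B →
    ∀ a : Ix n → ℤ, a (ixLead n) = 1 → (∀ p, |a p| ≤ (B : ℤ)) →
    ∀ α : ℂ, aeval α (topf a) = 0 → om a α ≠ 0 → ∀ σ, IsBranch a α σ →
    ∀ i e : ℕ, i ≤ n → ∃ p : ℤ[X], p.natDegree < n ∧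
      (∀ k, |p.coeff k| ≤ (B : ℤ) ^ (κ * (e + 1))) ∧
      aeval α p = om a α ^ (2 * e) * PowerSeries.coeff e (σ ^ i) := by
  sorry

end Pool.Agent.H8.Alm
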