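import Pool.Agent.H8.Alm.Fixpoint

namespace Pool.Agent.H8.Alm

open Polynomial
open scoped Polynomial.Bivariate

/-- Taylor coefficients of `pF a` at `(x₁, y₁)` -/
noncomputable def lbc {n : ℕ} (a : Ix n → ℤ) (x₁ y₁ : ℚ) (r t : ℕ) : ℚ :=
  ∑ p : Ix n, (a p : ℚ) * (x₁ ^ ((p.1.1 : ℕ) - r) * ((p.1.1 : ℕ).choose r : ℚ)) *
    (y₁ ^ ((p.1.2 : ℕ) - t) * ((p.1.2 : ℕ).choose t : ℚ))

theorem lb_add_pow (u v : PowerSeries ℚ) (i n : ℕ) (h : i ≤ n) :
    (u + v) ^ i = ∑ r ∈ Finset.range (n + 1), v ^ r * u ^ (i - r) * ((i.choose r : ℕ) : PowerSeries ℚ) := by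
  rw [add_comm, add_pow]
  have h1 : Finset.range (i + 1) ⊆ Finset.range (n + 1) := by
    intro r hr
    rw [Finset.mem_range] at hr ⊢
    omega
  refine Finset.sum_subset h1 fun r _ hr => ?_
  rw [Finset.mem_range] at hr
  rw [Nat.choose_eq_zero_of_lt (by omega)]
  simp

theorem lb_expand {n : ℕ} (a : Ix n → ℤ) (x₁ y₁ : ℚ) (w : PowerSeries ℚ) :
    pF a (PowerSeries.C x₁ + w) (PowerSeries.C y₁ + PowerSeries.X) =
      ∑ q : Fin (n + 1) × Fin (n + 1), PowerSeries.C (lbc a x₁ y₁ q.1 q.2) * w ^ (q.1 : ℕ) *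
        PowerSeries.X ^ (q.2 : ℕ) := by
  unfold pF lbc
  rw [Fintype.sum_prod_type]
  simp only [map_sum, Finset.sum_mul]
  have h1 : ∀ p : Ix n, ((a p : ℤ) : PowerSeries ℚ) * (PowerSeries.C x₁ + w) ^ (p.1.1 : ℕ) *
      (PowerSeries.C y₁ + PowerSeries.X) ^ (p.1.2 : ℕ) =
      ∑ r : Fin (n + 1), ∑ t : Fin (n + 1), PowerSeries.C ((a p : ℚ) *
        (x₁ ^ ((p.1.1 : ℕ) - (r : ℕ)) * ((p.1.1 : ℕ).choose r : ℚ)) *
        (y₁ ^ ((p.1.2 : ℕ) - (t : ℕ)) * ((p.1.2 : ℕ).choose t : ℚ))) * w ^ (r : ℕ) *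
        PowerSeries.X ^ (t : ℕ) := by
    intro p
    have hp := p.2
    rw [lb_add_pow _ _ _ n (by omega), lb_add_pow _ _ _ n (by omega), mul_assoc,
      Finset.sum_mul_sum, Finset.mul_sum, ← Fin.sum_univ_eq_sum_range]
    refine Finset.sum_congr rfl fun r _ => ?_
    rw [Finset.mul_sum, ← Fin.sum_univ_eq_sum_range]
    refine Finset.sum_congr rfl fun t _ => ?_
    have e : ((a p : ℤ) : PowerSeries ℚ) = PowerSeries.C (a p : ℚ) := by simp
    have e2 : ∀ m : ℕ, ((m : ℕ) : PowerSeries ℚ) = PowerSeries.C (m : ℚ) := by intro m; simp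
    rw [e, e2, e2]
    simp only [map_mul, map_pow]
    ring
  rw [Finset.sum_congr rfl fun p _ => h1 p, Finset.sum_comm]
  refine Finset.sum_congr rfl fun r _ => ?_
  rw [Finset.sum_comm]

theorem lbc_zero {n : ℕ} (a : Ix n → ℤ) (x₁ y₁ : ℤ) :
    lbc a (x₁ : ℚ) (y₁ : ℚ) 0 0 = ((pF a x₁ y₁ : ℤ) : ℚ) := by
  unfold lbc pF
  push_cast
  simp

theorem lbc_one {n : ℕ} (a : Ix n → ℤ) (x₁ y₁ : ℤ) :
    lbc a (x₁ : ℚ) (y₁ : ℚ) 1 0 = ((pFx a x₁ y₁ : ℤ) : ℚ) := by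
  unfold lbc pFx
  push_cast
  refine Finset.sum_congr rfl fun p _ => ?_
  simp only [Nat.choose_one_right, Nat.sub_zero, Nat.choose_zero_right, Nat.cast_one, mul_one]
  ring

/-- **Module 7b.** The local branch at an integer point. -/
theorem exists_local_branch {n : ℕ} (a : Ix n → ℤ) (x₁ y₁ : ℤ) (h : pF a x₁ y₁ = 0)
    (hx : pFx a x₁ y₁ ≠ 0) : ∃ ξ : PowerSeries ℚ, PowerSeries.constantCoeff ξ = x₁ ∧
      pF a ξ (PowerSeries.C (y₁ : ℚ) + PowerSeries.X) = 0 := by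
  classical
  set d : ℚ := ((pFx a x₁ y₁ : ℤ) : ℚ) with hd
  have hd0 : d ≠ 0 := by rw [hd]; exact_mod_cast hx
  -- `pFx ≠ 0` forces `1 ≤ n`
  have hn : 1 ≤ n := by
    by_contra hc
    apply hx
    unfold pFx
    refine Finset.sum_eq_zero fun p _ => ?_
    have hp := p.2
    have : (p.1.1 : ℕ) = 0 := by omega
    rw [this]
    simp
  let bad : Fin (n + 1) × Fin (n + 1) → Prop := fun q => (q.2 : ℕ) = 0 ∧ (q.1 : ℕ) ≤ 1
  obtain ⟨w, hw0, hw, -⟩ := fixpoint_series (R := ℚ)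
    (fun q : Fin (n + 1) × Fin (n + 1) => if bad q then 0 else -(lbc a x₁ y₁ q.1 q.2) / d)
    (fun q => if bad q then 2 else (q.1 : ℕ)) (fun q => if bad q then 0 else (q.2 : ℕ))
    (by
      intro q
      by_cases hb : bad q
      · simp only [hb, if_true]
        omega
      · simp only [hb, if_false]
        simp only [bad, not_and_or, not_le] at hb
        rcases hb with hb | hb <;> omega)
  refine ⟨PowerSeries.C (x₁ : ℚ) + w, by simp [hw0], ?_⟩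
  rw [lb_expand]
  -- compare with the fixed point equation
  have h1 : PowerSeries.C d * w =
      -∑ q : Fin (n + 1) × Fin (n + 1), (if bad q then 0 else
        PowerSeries.C (lbc a x₁ y₁ q.1 q.2) * w ^ (q.1 : ℕ) * PowerSeries.X ^ (q.2 : ℕ)) := by
    conv_lhs => rw [hw]
    rw [Finset.mul_sum, ← Finset.sum_neg_distrib]
    refine Finset.sum_congr rfl fun q _ => ?_
    by_cases hb : bad q
    · simp only [hb, if_true, map_zero, zero_mul, mul_zero, neg_zero]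
    · simp only [hb, if_false]
      rw [← mul_assoc, ← mul_assoc, ← map_mul, mul_div_cancel₀ _ hd0, map_neg]
      ring
  let q0 : Fin (n + 1) × Fin (n + 1) := (⟨0, by omega⟩, ⟨0, by omega⟩)
  let q1 : Fin (n + 1) × Fin (n + 1) := (⟨1, by omega⟩, ⟨0, by omega⟩)
  have hne : q0 ≠ q1 := by simp [q0, q1]
  have h2 : ∑ q : Fin (n + 1) × Fin (n + 1), (if bad q then
        PowerSeries.C (lbc a x₁ y₁ q.1 q.2) * w ^ (q.1 : ℕ) * PowerSeries.X ^ (q.2 : ℕ) else 0) =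
      PowerSeries.C d * w := by
    rw [← Finset.sum_filter]
    have hf : Finset.univ.filter bad = {q0, q1} := by
      ext q
      simp only [Finset.mem_filter, Finset.mem_univ, true_and, Finset.mem_insert,
        Finset.mem_singleton, bad, q0, q1, Prod.ext_iff, Fin.ext_iff]
      omega
    rw [hf, Finset.sum_pair hne]
    have e0 : lbc a (x₁ : ℚ) (y₁ : ℚ) ((q0.1 : Fin (n + 1)) : ℕ) ((q0.2 : Fin (n + 1)) : ℕ) = 0 := by
      show lbc a (x₁ : ℚ) (y₁ : ℚ) 0 0 = 0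
      rw [lbc_zero, h, Int.cast_zero]
    have e1 : lbc a (x₁ : ℚ) (y₁ : ℚ) ((q1.1 : Fin (n + 1)) : ℕ) ((q1.2 : Fin (n + 1)) : ℕ) = d := by
      show lbc a (x₁ : ℚ) (y₁ : ℚ) 1 0 = d
      rw [lbc_one]
    rw [e0, e1]
    simp [q1]
  have h3 : ∑ q : Fin (n + 1) × Fin (n + 1), PowerSeries.C (lbc a x₁ y₁ q.1 q.2) *
      w ^ (q.1 : ℕ) * PowerSeries.X ^ (q.2 : ℕ) =
      (∑ q : Fin (n + 1) × Fin (n + 1), (if bad q then
        PowerSeries.C (lbc a x₁ y₁ q.1 q.2) * w ^ (q.1 : ℕ) * PowerSeries.X ^ (q.2 : ℕ) else 0)) +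
      ∑ q : Fin (n + 1) × Fin (n + 1), (if bad q then 0 else
        PowerSeries.C (lbc a x₁ y₁ q.1 q.2) * w ^ (q.1 : ℕ) * PowerSeries.X ^ (q.2 : ℕ)) := by
    rw [← Finset.sum_add_distrib]
    refine Finset.sum_congr rfl fun q _ => ?_
    split_ifs <;> simp
  rw [h3, h2, h1, neg_add_cancel]

end Pool.Agent.H8.Alm
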