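import Pool.Agent.H8.Alm.Integral

/-! # Module 4: the auxiliary polynomial -/

namespace Pool.Agent.H8.Alm

open Polynomial

/-- **Module 4.** -/
theorem siegel_step (n : ℕ) (hn : 3 ≤ n) : ∃ κ : ℕ, ∀ (B : ℕ), 2 ≤ B →
    ∀ (a₁ a₂ : Ix n → ℤ), a₁ (ixLead n) = 1 → a₂ (ixLead n) = 1 →
    (∀ p, |a₁ p| ≤ (B : ℤ)) → (∀ p, |a₂ p| ≤ (B : ℤ)) → topf a₁ = topf a₂ →
    ∀ α : ℂ, aeval α (topf a₁) = 0 → om a₁ α ≠ 0 →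
    ∀ σ₁ σ₂, IsBranch a₁ α σ₁ → IsBranch a₂ α σ₂ →
    ∀ D : ℕ, n ≤ D → ∀ τ : Fin 5 → ℕ, (∀ i, τ i ≤ 4 * D) → 0 < ∑ i, τ i →
    9 * (n * ∑ i, τ i) ≤ 8 * (6 * (n * (D + 1) - n * (n - 1) / 2)) →
    ∃ u : Fin 6 → Fin n → ℕ → ℤ, (∃ j b c, u j b c ≠ 0) ∧
      (∀ j (b : Fin n) c, D < (b : ℕ) + c → u j b c = 0) ∧
      (∀ j b c, |u j b c| ≤ (B : ℤ) ^ (κ * D)) ∧
      ∀ i : Fin 5, ∀ e, e < τ i → PowerSeries.coeff e (hser D u σ₁ σ₂ i) = 0 := by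
  sorry

end Pool.Agent.H8.Alm
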