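import Pool.Agent.H8.Alm.Defs

/-! # Module 7a: Wronskians of power series -/

namespace Pool.Agent.H8.Alm

/-- **Module 7a.** Wronskians of power series over `ℚ` with respect to `u * d/dX`, `u` a unit. -/
theorem wronskian_ne_zero (u : PowerSeries ℚ) (hu : PowerSeries.constantCoeff u ≠ 0) (m : ℕ)
    (v : Fin m → PowerSeries ℚ) (hv : LinearIndependent ℚ v) :
    (Matrix.of fun (i j : Fin m) =>
      (fun w : PowerSeries ℚ => u * PowerSeries.derivative ℚ w)^[i] (v j)).det ≠ 0 := by
  sorry

end Pool.Agent.H8.Alm
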